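import Pool.Agent.Y546.SG.Loc

/-!
# The conditions of Sophie Germain for `q = 2 k p + 1`
-/

set_option autoImplicit false

namespace Pool.Agent.Q146.SG

open Polynomial
open Pool.Agent.Y546.SG

/-- no `2k`-th root of unity `u` such that `1 + u` is one, too -/
def NoPair (q k : ℕ) : Prop := ∀ u : ZMod q, u ^ (2 * k) = 1 → (1 + u) ^ (2 * k) ≠ 1

theorem germ_of {p q k : ℕ} [Fact q.Prime] (hp : Odd p) (hk : 1 ≤ k) (hq : q = 2 * k * p + 1)
    (h : NoPair q k) : Germ1 (ZMod q) p := by
  intro a b c habc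
  by_contra hcon
  push Not at hcon
  obtain ⟨ha, hb, hc⟩ := hcon
  have hq1 : q - 1 = p * (2 * k) := by rw [hq, Nat.add_sub_cancel]; ring
  have key : ∀ w : ZMod q, w ≠ 0 → (w ^ p) ^ (2 * k) = 1 := by
    intro w hw
    rw [← pow_mul, ← hq1]
    exact ZMod.pow_card_sub_one_eq_one hw
  have h1 : 1 + (b / a) ^ p = -(c / a) ^ p := by
    rw [div_pow, div_pow]
    field_simp
    linear_combination habc
  have h2 := h ((b / a) ^ p) (key _ (div_ne_zero hb ha))
  apply h2
  rw [h1, Even.neg_pow ⟨k, by ring⟩]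
  exact key _ (div_ne_zero hc ha)

theorem notPw_of {p q k : ℕ} [Fact q.Prime] (hp : Odd p) (hk : 1 ≤ k) (hq : q = 2 * k * p + 1)
    (h : ((2 * k : ℕ) : ZMod q) ^ (2 * k) ≠ 1) : ¬ IsPw p (p : ZMod q) := by
  rintro ⟨t, ht⟩
  have hq1 : q - 1 = p * (2 * k) := by rw [hq, Nat.add_sub_cancel]; ring
  have h0 : ((q : ℕ) : ZMod q) = 0 := ZMod.natCast_self q
  have h1 : ((2 * k : ℕ) : ZMod q) * (p : ZMod q) = -1 := by
    have h2 : ((2 * k * p + 1 : ℕ) : ZMod q) = 0 := by rw [← hq]; exact h0
    push_cast at h2 ⊢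
    linear_combination h2
  have ht0 : t ≠ 0 := by
    rintro rfl
    rw [zero_pow hp.pos.ne'] at ht
    rw [← ht, mul_zero] at h1
    exact one_ne_zero (neg_eq_zero.1 h1.symm)
  apply h
  have h3 : (p : ZMod q) ^ (2 * k) = 1 := by
    rw [← ht, ← pow_mul, ← hq1]
    exact ZMod.pow_card_sub_one_eq_one ht0
  have h4 : (((2 * k : ℕ) : ZMod q) * (p : ZMod q)) ^ (2 * k) = 1 := by
    rw [h1, Even.neg_pow ⟨k, by ring⟩, one_pow]
  rwa [mul_pow, h3, mul_one] at h4

/-- over the complex numbers -/
theorem complex_pair {k : ℕ} (hk : 1 ≤ k) (h3 : ¬ 3 ∣ k) (u : ℂ) (hu : u ^ (2 * k) = 1)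
    (hv : (1 + u) ^ (2 * k) = 1) : False := by
  have n1 : ‖u‖ = 1 := by
    have := congrArg norm hu
    rw [norm_pow, norm_one] at this
    exact (pow_eq_one_iff_of_nonneg (norm_nonneg _) (by omega)).1 this
  have n2 : ‖1 + u‖ = 1 := by
    have := congrArg norm hv
    rw [norm_pow, norm_one] at this
    exact (pow_eq_one_iff_of_nonneg (norm_nonneg _) (by omega)).1 this
  have m1 : u.re * u.re + u.im * u.im = 1 := by
    have := Complex.normSq_eq_norm_sq u
    rw [n1, Complex.normSq_apply] at this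
    linarith
  have m2 : (1 + u.re) * (1 + u.re) + u.im * u.im = 1 := by
    have := Complex.normSq_eq_norm_sq (1 + u)
    rw [n2, Complex.normSq_apply] at this
    simp only [Complex.add_re, Complex.one_re, Complex.add_im, Complex.one_im, zero_add] at this
    linarith
  have m3 : u.re = -1 / 2 := by linarith
  have m4 : u ^ 2 + u + 1 = 0 := by
    apply Complex.ext
    · simp only [sq, Complex.add_re, Complex.mul_re, Complex.one_re, Complex.zero_re]
      rw [m3] at m1 ⊢
      nlinarith
    · simp only [sq, Complex.add_im, Complex.mul_im, Complex.one_im, Complex.zero_im]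
      rw [m3]
      ring
  have m5 : u ^ 3 = 1 := by linear_combination (u - 1) * m4
  have hcop : Nat.gcd (2 * k) 3 = 1 := by
    have : Nat.Coprime 3 (2 * k) := by
      rw [Nat.Prime.coprime_iff_not_dvd Nat.prime_three]
      intro h
      rcases (Nat.Prime.dvd_mul Nat.prime_three).1 h with h | h
      · omega
      · exact h3 h
    exact this.symm
  have m6 : u = 1 := by
    have h1 := orderOf_dvd_of_pow_eq_one hu
    have h2 := orderOf_dvd_of_pow_eq_one m5
    have h4 := Nat.dvd_gcd h1 h2
    rw [hcop, Nat.dvd_one] at h4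
    exact orderOf_eq_one_iff.1 h4
  rw [m6] at m4
  norm_num at m4

theorem exists_bound (k : ℕ) (hk : 1 ≤ k) (h3 : ¬ 3 ∣ k) : ∃ M : ℕ, ∀ q : ℕ, q.Prime → M ≤ q → NoPair q k := by
  have hcop : IsCoprime ((X ^ (2 * k) - 1 : ℚ[X])) ((1 + X) ^ (2 * k) - 1 : ℚ[X]) := by
    rw [Polynomial.isCoprime_iff_aeval_ne_zero_of_isAlgClosed ℚ ℂ]
    intro u
    by_contra hcon
    push Not at hcon
    obtain ⟨h1, h2⟩ := hcon
    simp only [map_sub, map_pow, aeval_X, map_one, map_add] at h1 h2
    exact complex_pair hk h3 u (sub_eq_zero.1 h1) (sub_eq_zero.1 h2)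
  obtain ⟨a, b, hab⟩ := hcop
  obtain ⟨c, hc⟩ := IsLocalization.integerNormalization_map_to_map (nonZeroDivisors ℤ) a
  obtain ⟨d, hd⟩ := IsLocalization.integerNormalization_map_to_map (nonZeroDivisors ℤ) b
  set A := IsLocalization.integerNormalization (nonZeroDivisors ℤ) a
  set B := IsLocalization.integerNormalization (nonZeroDivisors ℤ) b
  have hc0 : (c : ℤ) ≠ 0 := nonZeroDivisors.ne_zero c.2
  have hd0 : (d : ℤ) ≠ 0 := nonZeroDivisors.ne_zero d.2
  have key : C (d : ℤ) * A * (X ^ (2 * k) - 1) + C (c : ℤ) * B * ((1 + X) ^ (2 * k) - 1) =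
      C ((c : ℤ) * d) := by
    apply Polynomial.map_injective (algebraMap ℤ ℚ) (RingHom.injective_int _)
    simp only [Polynomial.map_add, Polynomial.map_mul, Polynomial.map_sub, Polynomial.map_pow,
      Polynomial.map_X, Polynomial.map_one, Polynomial.map_C]
    rw [hc, hd]
    rw [Algebra.smul_def, Algebra.smul_def]
    simp only [Polynomial.algebraMap_apply, map_mul, C_mul]
    linear_combination (C ((algebraMap ℤ ℚ) (c : ℤ)) * C ((algebraMap ℤ ℚ) (d : ℤ))) * hab
  refine ⟨((c : ℤ) * d).natAbs + 1, fun q hq hM u hu hv => ?_⟩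
  have : Fact q.Prime := ⟨hq⟩
  have h1 := congrArg (fun P : ℤ[X] => (P.map (Int.castRingHom (ZMod q))).eval u) key
  simp only [Polynomial.map_add, Polynomial.map_mul, Polynomial.map_sub, Polynomial.map_pow,
      Polynomial.map_X, Polynomial.map_one, Polynomial.map_C, eval_add, eval_mul, eval_sub, eval_pow,
      eval_X, eval_one, eval_C, hu, hv, sub_self, mul_zero, add_zero] at h1
  have h2 : (((c : ℤ) * d : ℤ) : ZMod q) = 0 := by
    rw [← h1.symm]
    rfl
  rw [ZMod.intCast_zmod_eq_zero_iff_dvd] at h2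
  have h4 : q ∣ ((c : ℤ) * d).natAbs := Int.natCast_dvd.1 h2
  have h5 := Nat.le_of_dvd (Int.natAbs_pos.2 (mul_ne_zero hc0 hd0)) h4
  omega

/-- for fixed `k` prime to three the conditions hold if `p` is large -/
theorem conditions (k : ℕ) (hk : 1 ≤ k) (h3 : ¬ 3 ∣ k) : ∃ P : ℕ, ∀ p : ℕ, Odd p → P ≤ p →
    ∀ q : ℕ, ∀ [Fact q.Prime], q = 2 * k * p + 1 → Germ1 (ZMod q) p ∧ ¬ IsPw p (p : ZMod q) := by
  obtain ⟨M, hM⟩ := exists_bound k hk h3
  refine ⟨M + (2 * k) ^ (2 * k), fun p hp hPp q _ hqe => ?_⟩
  have hq : q.Prime := Fact.out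
  have hpq : p < q := by
    rw [hqe]
    nlinarith
  have hlt : (2 * k) ^ (2 * k) < q := lt_of_le_of_lt (le_trans (Nat.le_add_left _ _) hPp) hpq
  refine ⟨germ_of hp hk hqe (hM q hq (by omega)), notPw_of hp hk hqe ?_⟩
  intro h
  have h1 : (((2 * k) ^ (2 * k) : ℕ) : ZMod q) = ((1 : ℕ) : ZMod q) := by
    push_cast at h ⊢
    exact h
  rw [ZMod.natCast_eq_natCast_iff', Nat.mod_eq_of_lt hlt,
    Nat.mod_eq_of_lt hq.one_lt] at h1
  have h2 : 2 ^ (2 * k) ≤ (2 * k) ^ (2 * k) := Nat.pow_le_pow_left (by omega) _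
  have h4 : 2 ^ 2 ≤ 2 ^ (2 * k) := Nat.pow_le_pow_right (by norm_num) (by omega)
  omega

/-- `q = 2 p + 1` -/
theorem conditions_one {p q : ℕ} [Fact q.Prime] (hp : Odd p) (hp3 : 3 ≤ p) (hq : q = 2 * p + 1) :
    Germ1 (ZMod q) p ∧ ¬ IsPw p (p : ZMod q) := by
  have hne : ∀ m : ℕ, 0 < m → m < q → ((m : ℕ) : ZMod q) ≠ 0 := fun m h0 hm h => by
    rw [ZMod.natCast_eq_zero_iff] at h
    exact absurd (Nat.le_of_dvd h0 h) (by omega)
  have h3 : (3 : ZMod q) ≠ 0 := by simpa using hne 3 (by norm_num) (by omega)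
  refine ⟨germ_of hp le_rfl (by rw [hq]) fun u hu hv => h3 ?_, notPw_of hp le_rfl (by rw [hq]) fun h => h3 ?_⟩
  · have h1 : u ^ 2 = 1 := by simpa using hu
    have h2 : (1 + u) ^ 2 = 1 := by simpa using hv
    -- 1 + 2 u = 0, 4 = 4 u^2 = 1
    linear_combination (2 * u - 1) * (h2 - h1) - 4 * h1
  · push_cast at h
    linear_combination h

/-- `q = 4 p + 1` -/
theorem conditions_two {p q : ℕ} [Fact q.Prime] (hp : Odd p) (hp3 : 3 ≤ p) (hq : q = 4 * p + 1) :
    Germ1 (ZMod q) p ∧ ¬ IsPw p (p : ZMod q) := by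
  have hq' : q.Prime := Fact.out
  have hne : ∀ m : ℕ, 0 < m → m < q → ((m : ℕ) : ZMod q) ≠ 0 := fun m h0 hm h => by
    rw [ZMod.natCast_eq_zero_iff] at h
    exact absurd (Nat.le_of_dvd h0 h) (by omega)
  have h3 : (3 : ZMod q) ≠ 0 := by simpa using hne 3 (by norm_num) (by omega)
  have h5 : (5 : ZMod q) ≠ 0 := by simpa using hne 5 (by norm_num) (by omega)
  have h17 : (17 : ZMod q) ≠ 0 := by
    intro h
    have h1 : ((17 : ℕ) : ZMod q) = 0 := by simpa using h
    rw [ZMod.natCast_eq_zero_iff, Nat.prime_dvd_prime_iff_eq hq' (by norm_num)] at h1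
    obtain ⟨r, hr⟩ := hp
    omega
  refine ⟨germ_of hp (by norm_num : 1 ≤ 2) (by rw [hq]) fun u hu hv => ?_,
    notPw_of hp (by norm_num : 1 ≤ 2) (by rw [hq]) fun h => ?_⟩
  · have h1 : u ^ 4 = 1 := by simpa using hu
    have h2 : (1 + u) ^ 4 = 1 := by simpa using hv
    have h4 : (u ^ 2 - 1) * (u ^ 2 + 1) = 0 := by linear_combination h1
    rcases mul_eq_zero.1 h4 with h6 | h6
    · have h7 : (u - 1) * (u + 1) = 0 := by linear_combination h6
      rcases mul_eq_zero.1 h7 with h8 | h8
      · have h9 : u = 1 := by linear_combination h8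
        rw [h9] at h2
        have : (3 : ZMod q) * 5 = 0 := by linear_combination h2
        rcases mul_eq_zero.1 this with h | h
        · exact h3 h
        · exact h5 h
      · have h9 : u = -1 := by linear_combination h8
        rw [h9] at h2
        norm_num at h2
    · apply h5
      linear_combination (u ^ 2 + 4 * u + 5) * h6 - h2
  · push_cast at h
    have : (3 : ZMod q) * 5 * 17 = 0 := by
      linear_combination h
    rcases mul_eq_zero.1 this with h | h
    · rcases mul_eq_zero.1 h with h | h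
      · exact h3 h
      · exact h5 h
    · exact h17 h

/-- the condition at split primes for `q = 2 p + 1`, five not a square modulo `q` -/
theorem apart_one {p q : ℕ} [Fact q.Prime] (hp : Odd p) (hp3 : 3 ≤ p) (hq : q = 2 * p + 1)
    (h5 : ¬ IsSquare (5 : ZMod q)) : Apart (ZMod q) p := by
  have hq' : q.Prime := Fact.out
  have hne : ∀ m : ℕ, 0 < m → m < q → ((m : ℕ) : ZMod q) ≠ 0 := fun m h0 hm h => by
    rw [ZMod.natCast_eq_zero_iff] at h
    exact absurd (Nat.le_of_dvd h0 h) (by omega)
  have h2 : (2 : ZMod q) ≠ 0 := by simpa using hne 2 (by norm_num) (by omega)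
  have h3 : (3 : ZMod q) ≠ 0 := by simpa using hne 3 (by norm_num) (by omega)
  have hq1 : q - 1 = p * 2 := by rw [hq, Nat.add_sub_cancel]; ring
  -- p-th powers
  have hpw : ∀ w : ZMod q, IsPw p w → w = 0 ∨ w = 1 ∨ w = -1 := by
    rintro w ⟨t, rfl⟩
    by_cases ht : t = 0
    · left; rw [ht, zero_pow hp.pos.ne']
    · right
      have h1 : (t ^ p) ^ 2 = 1 := by
        rw [← pow_mul, ← hq1]
        exact ZMod.pow_card_sub_one_eq_one ht
      have h4 : (t ^ p - 1) * (t ^ p + 1) = 0 := by linear_combination h1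
      rcases mul_eq_zero.1 h4 with h | h
      · left; linear_combination h
      · right; linear_combination h
  have hnz : ∀ u : ZMod q, u ^ p = 1 → u ≠ 0 := by
    rintro u hu rfl
    rw [zero_pow hp.pos.ne'] at hu
    exact zero_ne_one hu
  -- minus one is not a p-th root of one
  have hm : ∀ u : ZMod q, u ^ p = 1 → u ≠ -1 := by
    rintro u hu rfl
    rw [hp.neg_one_pow] at hu
    apply h2
    linear_combination -hu
  intro u v hu hv huv
  have hu0 := hnz u hu
  have hv0 := hnz v hv
  have huvp : (u * v) ^ p = 1 := by rw [mul_pow, hu, hv, one_mul]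
  refine ⟨?_, ?_⟩
  · rintro ⟨h1, h4⟩
    have e1 : u * v = 1 := by
      rcases hpw _ h1 with h | h | h
      · exact absurd h (mul_ne_zero hu0 hv0)
      · exact h
      · exact absurd h (hm _ huvp)
    -- v = u⁻¹
    have hu1 : u ≠ 1 := by
      rintro rfl
      rw [one_mul] at e1
      rcases huv with h | h
      · exact h rfl
      · exact h e1
    rcases hpw _ h4 with h | h | h
    · rcases mul_eq_zero.1 h with h | h
      · exact hu1 (by linear_combination -h)
      · apply hu1
        have : v = 1 := by linear_combination -h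
        rwa [this, mul_one] at e1
    · -- 1 - u - v + 1 = 1: v = 1 - u, u (1 - u) = 1, -3 ... u^2 - u + 1 = 0, u^3 = -1
      have e2 : u ^ 2 - u + 1 = 0 := by linear_combination (-u) * h - (1 - u) * e1 + e1 - e1
      have e3 : u ^ 3 = -1 := by linear_combination (u + 1) * e2
      have e4 : (u ^ p) ^ 3 = -1 := by
        rw [← pow_mul, mul_comm, pow_mul, e3, hp.neg_one_pow]
      rw [hu, one_pow] at e4
      apply h2
      linear_combination e4
    · -- u + v = 3
      apply h5
      refine ⟨2 * u - 3, ?_⟩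
      have e2 : u ^ 2 - 3 * u + 1 = 0 := by linear_combination (-u) * h - (1 - u) * e1 + e1 - e1
      linear_combination -4 * e2
  · rintro ⟨h1, h4, h6, h7⟩
    have huv0 : u * v ≠ 0 := mul_ne_zero hu0 hv0
    have h50 : (5 : ZMod q) ≠ 0 := by simpa using hne 5 (by norm_num) (by omega)
    have h2p : 2 * (p : ZMod q) = -1 := by
      have h8 : ((2 * p + 1 : ℕ) : ZMod q) = 0 := by rw [← hq]; exact ZMod.natCast_self q
      push_cast at h8
      linear_combination h8
    have sixth : ∀ w : ZMod q, w ^ p = 1 → w ^ 2 - w + 1 ≠ 0 := by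
      intro w hw e2
      have e3 : w ^ 3 = -1 := by linear_combination (w + 1) * e2
      have e4 : (w ^ p) ^ 3 = -1 := by
        rw [← pow_mul, mul_comm, pow_mul, e3, hp.neg_one_pow]
      rw [hw, one_pow] at e4
      apply h2
      linear_combination e4
    have half : ∀ w : ZMod q, 2 * w = 1 → ¬ IsPw p ((p : ZMod q) * (1 - w)) := by
      intro w hw hh
      have e1 : 4 * ((p : ZMod q) * (1 - w)) = -1 := by
        linear_combination (2 * (1 - w)) * h2p + hw
      rcases hpw _ hh with h | h | h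
      · rw [h, mul_zero] at e1
        exact one_ne_zero (neg_eq_zero.1 e1.symm)
      · rw [h] at e1
        apply h50
        linear_combination e1
      · rw [h] at e1
        apply h3
        linear_combination -e1
    have hA : 1 - u = 0 ∨ 1 - u = u * v ∨ 1 - u = -(u * v) := by
      rcases hpw _ h1 with h | h | h
      · left
        rcases div_eq_zero_iff.1 h with h | h
        · exact h
        · exact absurd h huv0
      · right; left
        rwa [div_eq_one_iff_eq huv0] at h
      · right; right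
        rw [div_eq_iff huv0] at h
        linear_combination h
    have hB : 1 - v = 0 ∨ 1 - v = u * v ∨ 1 - v = -(u * v) := by
      rcases hpw _ h4 with h | h | h
      · left
        rcases div_eq_zero_iff.1 h with h | h
        · exact h
        · exact absurd h huv0
      · right; left
        rwa [div_eq_one_iff_eq huv0] at h
      · right; right
        rw [div_eq_iff huv0] at h
        linear_combination h
    rcases hA with a1 | a1 | a1 <;> rcases hB with b1 | b1 | b1
    · rcases huv with h | h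
      · exact h (by linear_combination -a1)
      · exact h (by linear_combination -b1)
    · have e1 : u = 1 := by linear_combination -a1
      refine half v ?_ (h6 e1)
      rw [e1] at b1
      linear_combination -b1
    · have e1 : u = 1 := by linear_combination -a1
      rw [e1] at b1
      exact one_ne_zero (α := ZMod q) (by linear_combination b1)
    · have e1 : v = 1 := by linear_combination -b1
      refine half u ?_ (h7 e1)
      rw [e1] at a1
      linear_combination -a1
    · apply h5
      have e1 : v = u := by linear_combination a1 - b1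
      rw [e1] at a1
      exact ⟨2 * u + 1, by linear_combination 4 * a1⟩
    · apply h5
      have e1 : v = 2 - u := by linear_combination -a1 - b1
      rw [e1] at a1
      exact ⟨2 * u - 3, by linear_combination -4 * a1⟩
    · have e1 : v = 1 := by linear_combination -b1
      rw [e1] at a1
      exact one_ne_zero (α := ZMod q) (by linear_combination a1)
    · apply h5
      have e1 : u = 2 - v := by linear_combination -a1 - b1
      rw [e1] at b1
      exact ⟨2 * v - 3, by linear_combination -4 * b1⟩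
    · have e1 : v = u := by linear_combination a1 - b1
      rw [e1] at a1
      exact sixth u hu (by linear_combination a1)

theorem sq_two_five : ¬ IsSquare ((2 : ℕ) : ZMod 5) := by decide

theorem sq_three_five : ¬ IsSquare ((3 : ℕ) : ZMod 5) := by decide

/-- five is not a square modulo a prime `q = 2, 3` modulo five -/
theorem five_not_square {q : ℕ} [Fact q.Prime] (h2 : q ≠ 2) (h : q % 5 = 2 ∨ q % 5 = 3) :
    ¬ IsSquare (5 : ZMod q) := by
  have : Fact (Nat.Prime 5) := ⟨by norm_num⟩
  intro hs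
  have h1 : IsSquare ((5 : ℕ) : ZMod q) := by simpa using hs
  rw [← ZMod.exists_sq_eq_prime_iff_of_mod_four_eq_one (by norm_num : 5 % 4 = 1) h2] at h1
  have h3 : ((q : ℕ) : ZMod 5) = ((q % 5 : ℕ) : ZMod 5) := by simp
  rw [h3] at h1
  rcases h with h | h
  · rw [h] at h1
    exact sq_two_five h1
  · rw [h] at h1
    exact sq_three_five h1

end Pool.Agent.Q146.SG
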