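import Pool.Agent.Y546.SG.Main

/-!
# Sophie Germain's theorem at a totally ramified prime
-/

set_option autoImplicit false

namespace Pool.Agent.Q146.SG

open NumberField IsDedekindDomain
open Pool.Agent.Y546.SG

variable {K : Type*} [Field K] [NumberField K]

/-- the norm of an ideal whose power of the degree is `(q)` -/
theorem absNorm_of_pow {q : ℕ} (Q : Ideal (𝓞 K))
    (hQ : Q ^ Module.finrank ℚ K = Ideal.span {((q : ℕ) : 𝓞 K)}) : Ideal.absNorm Q = q := by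
  have h1 : Ideal.absNorm Q ^ Module.finrank ℚ K = q ^ Module.finrank ℚ K := by
    rw [← map_pow, hQ, Ideal.absNorm_span_singleton]
    have h2 : Algebra.norm ℤ ((q : ℕ) : 𝓞 K) = (q : ℤ) ^ Module.finrank ℚ K := by
      have h3 := Algebra.norm_algebraMap (S := 𝓞 K) (R := ℤ) (q : ℤ)
      rw [RingOfIntegers.rank] at h3
      simpa using h3
    rw [h2, Int.natAbs_pow, Int.natAbs_natCast]
  exact Nat.pow_left_injective (Module.finrank_pos.ne') h1

/-- the determinant of a scalar plus a nilpotent matrix -/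
theorem det_scalar_add {F : Type*} [Field F] {n : Type*} [Fintype n] [DecidableEq n] (r : F)
    (N : Matrix n n F) (hN : IsNilpotent N) : (Matrix.scalar n r + N).det = r ^ Fintype.card n := by
  have h1 : IsNilpotent (-N) := hN.neg
  have h2 := Matrix.isNilpotent_charpoly_sub_pow_of_isNilpotent h1
  have h3 : (-N).charpoly = Polynomial.X ^ Fintype.card n := sub_eq_zero.1 h2.eq_zero
  have h4 := Matrix.eval_charpoly (-N) r
  rw [h3, sub_neg_eq_add] at h4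
  rw [← h4]
  simp

/-- at a totally ramified prime the norm is the power of the residue -/
theorem norm_residue {q : ℕ} [Fact q.Prime] (Q : Ideal (𝓞 K))
    (hQ : Q ^ Module.finrank ℚ K = Ideal.span {((q : ℕ) : 𝓞 K)}) (ρ : 𝓞 K →+* ZMod q) (a : 𝓞 K) :
    ((Algebra.norm ℤ a : ℤ) : ZMod q) = ρ a ^ Module.finrank ℚ K := by
  classical
  have hfr : Module.finrank ℤ (𝓞 K) = Module.finrank ℚ K := RingOfIntegers.rank K
  let b : Module.Basis (Fin (Module.finrank ℚ K)) ℤ (𝓞 K) := Module.finBasisOfFinrankEq ℤ (𝓞 K) hfr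
  obtain ⟨m, hm⟩ : ∃ m : ℤ, (m : ZMod q) = ρ a := ⟨((ρ a).val : ℤ), by simp⟩
  have hq : q.Prime := Fact.out
  -- the kernel contains Q, and Q is maximal
  have hker : Q ≤ RingHom.ker ρ := by
    have h1 : Q ^ Module.finrank ℚ K ≤ RingHom.ker ρ := by
      rw [hQ, Ideal.span_singleton_le_iff_mem, RingHom.mem_ker, map_natCast, CharP.cast_eq_zero]
    have : (RingHom.ker ρ).IsPrime := RingHom.ker_isPrime ρ
    exact Ideal.IsPrime.le_of_pow_le h1
  have hQm : Q.IsPrime := Ideal.isPrime_of_irreducible_absNorm (by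
    rw [absNorm_of_pow Q hQ]; exact hq)
  have hQ0 : Q ≠ ⊥ := by
    rintro rfl
    have h1 := absNorm_of_pow _ hQ
    rw [Ideal.absNorm_bot] at h1
    exact hq.ne_zero h1.symm
  have hQmax : Q.IsMaximal := hQm.isMaximal hQ0
  have hkereq : RingHom.ker ρ = Q := (hQmax.eq_of_le (RingHom.ker_ne_top _) hker).symm
  have hn : a - (m : 𝓞 K) ∈ Q := by
    rw [← hkereq, RingHom.mem_ker, map_sub, map_intCast, hm, sub_self]
  have hnd : (a - (m : 𝓞 K)) ^ Module.finrank ℚ K ∈ Ideal.span {((q : ℕ) : 𝓞 K)} := by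
    rw [← hQ]
    exact Ideal.pow_mem_pow hn _
  obtain ⟨c, hc⟩ := Ideal.mem_span_singleton'.1 hnd
  set N : Matrix (Fin (Module.finrank ℚ K)) (Fin (Module.finrank ℚ K)) (ZMod q) :=
    (Int.castRingHom (ZMod q)).mapMatrix (Algebra.leftMulMatrix b (a - (m : 𝓞 K))) with hN
  have hNnil : IsNilpotent N := by
    refine ⟨Module.finrank ℚ K, ?_⟩
    rw [hN, ← map_pow, ← map_pow, ← hc, map_mul, map_natCast, map_mul, map_natCast]
    have h0 : ((q : ℕ) : Matrix (Fin (Module.finrank ℚ K)) (Fin (Module.finrank ℚ K)) (ZMod q)) = 0 := by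
      ext i j
      rw [Matrix.natCast_apply]
      simp
    rw [h0, mul_zero]
  have hmat : (Int.castRingHom (ZMod q)).mapMatrix (Algebra.leftMulMatrix b a) =
      Matrix.scalar (Fin (Module.finrank ℚ K)) (ρ a) + N := by
    have h1 : a = (m : 𝓞 K) + (a - (m : 𝓞 K)) := by ring
    rw [hN]
    conv_lhs => rw [h1]
    rw [map_add, map_add, map_intCast, map_intCast, ← hm]
    congr 1
  rw [Algebra.norm_eq_matrix_det b]
  show (Int.castRingHom (ZMod q)) _ = _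
  rw [RingHom.map_det, hmat, det_scalar_add _ _ hNnil, Fintype.card_fin]

/-- reduction of the exponent -/
theorem root_class {F : Type*} [Field F] {p d e f : ℕ} (hp : p ≠ 0) (he : d * e = p * f + 1) {w g s : F}
    (hg : g ≠ 0) (h : w ^ d = g * s ^ p) : IsPw p (w / g ^ e) := by
  by_cases hw : w = 0
  · exact ⟨0, by rw [hw, zero_div, zero_pow hp]⟩
  · refine ⟨s ^ e / w ^ f, ?_⟩
    have h1 : w ^ (p * f + 1) = g ^ e * (s ^ e) ^ p := by
      rw [← he, pow_mul, h, mul_pow, ← pow_mul, ← pow_mul, mul_comm p e]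
    rw [div_pow, div_eq_div_iff (pow_ne_zero _ (pow_ne_zero _ hw)) (pow_ne_zero _ hg)]
    calc (s ^ e) ^ p * g ^ e = w ^ (p * f + 1) := by rw [h1]; ring
      _ = w * (w ^ f) ^ p := by rw [← pow_mul, mul_comm f p, pow_succ]; ring

theorem dat_ram {p q : ℕ} (hp : Odd p) [Fact q.Prime] {d e f : ℕ} (he : d * e = p * f + 1)
    (ρ : 𝓞 K →+* ZMod q)
    (hN : ∀ a : 𝓞 K, ((Algebra.norm ℤ a : ℤ) : ZMod q) = ρ a ^ d)
    {X Y Z : 𝓞 K} (hX : X ≠ 0) (h : X ^ p + Y ^ p + Z ^ p = 0) (G : Ideal (𝓞 K))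
    (hG : G = Ideal.span {X, Y, Z}) (hg : ((Ideal.absNorm G : ℕ) : ZMod q) ≠ 0)
    (hcase : ∀ P : Ideal (𝓞 K), P.IsPrime → ((p : ℕ) : 𝓞 K) ∈ P → X ∉ P * G) :
    Dat p ((((Ideal.absNorm G : ℕ) : ZMod q) ^ e) ^ 2) (ρ Y) (ρ Z) (ρ Y) (ρ Z) := by
  obtain ⟨⟨a, ha⟩, b, hb⟩ := ideal_pow hp hX h G hG hcase
  obtain ⟨s, hs⟩ := norm_of_ideal hp _ _ _ ha
  obtain ⟨t, ht⟩ := norm_of_ideal hp _ _ _ hb
  have hp0 : p ≠ 0 := hp.pos.ne'
  have h1 : (ρ Y + ρ Z) ^ d = ((Ideal.absNorm G : ℕ) : ZMod q) * (s : ZMod q) ^ p := by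
    rw [← map_add, ← hN, hs]
    push_cast
    rfl
  have h2 : (phi p (ρ Y) (ρ Z)) ^ d = ((Ideal.absNorm G : ℕ) : ZMod q) ^ (p - 1) * (t : ZMod q) ^ p := by
    rw [← phi_map, ← hN, ht, map_pow]
    push_cast
    rfl
  have h3 := root_class hp0 he hg h1
  have h4 := root_class hp0 he (pow_ne_zero _ hg) h2
  refine ⟨?_, ?_⟩
  · have h5 := h3.mul h3
    rw [div_mul_div_comm] at h5
    rwa [sq ((((Ideal.absNorm G : ℕ) : ZMod q)) ^ e)]
  · have h5 := h4.mul h4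
    rw [div_mul_div_comm] at h5
    have e1 : ((((Ideal.absNorm G : ℕ) : ZMod q) ^ e) ^ 2) ^ (p - 1) =
        (((Ideal.absNorm G : ℕ) : ZMod q) ^ (p - 1)) ^ e * (((Ideal.absNorm G : ℕ) : ZMod q) ^ (p - 1)) ^ e := by
      rw [← pow_mul, ← pow_mul, ← pow_mul, ← pow_add]
      congr 1
      ring
    rwa [e1]

/-- **Sophie Germain's theorem at a totally ramified prime.** -/
theorem main {p q : ℕ} (hp : Odd p) (hp1 : 1 < p) [Fact q.Prime] (hdp : Nat.Coprime (Module.finrank ℚ K) p)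
    (Q : Ideal (𝓞 K)) (hQ : Q ^ Module.finrank ℚ K = Ideal.span {((q : ℕ) : 𝓞 K)})
    (hG : Germ1 (ZMod q) p) (hP : ¬ IsPw p (p : ZMod q))
    {x y z : K} (hx : x ≠ 0) (hy : y ≠ 0) (hz : z ≠ 0) (h : x ^ p + y ^ p + z ^ p = 0)
    (hv : ∀ v : HeightOneSpectrum (𝓞 K), ((p : ℕ) : 𝓞 K) ∈ v.asIdeal →
      v.valuation K x = v.valuation K y ∧ v.valuation K y = v.valuation K z) : False := by
  obtain ⟨ρ⟩ := exists_residue (Fact.out : q.Prime) Q (absNorm_of_pow Q hQ)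
  have hN := norm_residue Q hQ ρ
  obtain ⟨e, f, he⟩ : ∃ e f : ℕ, Module.finrank ℚ K * e = p * f + 1 := by
    obtain ⟨e, -, he⟩ := Nat.exists_mul_mod_eq_one_of_coprime hdp hp1
    refine ⟨e, Module.finrank ℚ K * e / p, ?_⟩
    have h1 := Nat.div_add_mod (Module.finrank ℚ K * e) p
    omega
  obtain ⟨a, X, Y, Z, hXa, hYa, hZa, hn⟩ := scale1 (y := y) (z := z) hx (RingHom.ker ρ)
    (RingHom.ker_ne_top _)
  simp only [RingHom.mem_ker] at hn
  have ha : a ≠ 0 := by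
    rintro rfl
    rw [zero_mul] at hXa hYa hZa
    have h1 : X = 0 := RingOfIntegers.coe_injective (by rw [map_zero]; exact hXa)
    have h2 : Y = 0 := RingOfIntegers.coe_injective (by rw [map_zero]; exact hYa)
    have h3 : Z = 0 := RingOfIntegers.coe_injective (by rw [map_zero]; exact hZa)
    apply hn
    rw [h1, h2, h3, map_zero]
    exact ⟨rfl, rfl, rfl⟩
  have hX0 : X ≠ 0 := by
    rintro rfl
    rw [map_zero] at hXa
    exact mul_ne_zero ha hx hXa.symm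
  have hY0 : Y ≠ 0 := by
    rintro rfl
    rw [map_zero] at hYa
    exact mul_ne_zero ha hy hYa.symm
  have hZ0 : Z ≠ 0 := by
    rintro rfl
    rw [map_zero] at hZa
    exact mul_ne_zero ha hz hZa.symm
  have hXYZ : X ^ p + Y ^ p + Z ^ p = 0 := by
    apply RingOfIntegers.coe_injective
    rw [map_zero, map_add, map_add, map_pow, map_pow, map_pow]
    have e : a ^ p * (x ^ p + y ^ p + z ^ p) = 0 := by rw [h, mul_zero]
    rw [hXa, hYa, hZa, mul_pow, mul_pow, mul_pow]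
    linear_combination e
  obtain ⟨G, hGd⟩ : ∃ G : Ideal (𝓞 K), G = Ideal.span {X, Y, Z} := ⟨_, rfl⟩
  have hGd2 : G = Ideal.span {Y, Z, X} := by
    rw [hGd]
    congr 1
    ext t
    simp only [Set.mem_insert_iff, Set.mem_singleton_iff]
    tauto
  have hGd3 : G = Ideal.span {Z, X, Y} := by
    rw [hGd]
    congr 1
    ext t
    simp only [Set.mem_insert_iff, Set.mem_singleton_iff]
    tauto
  -- valuations
  have hval : ∀ P : Ideal (𝓞 K), P.IsPrime → ((p : ℕ) : 𝓞 K) ∈ P → ∀ n : ℕ,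
      (X ∈ P ^ n ↔ Y ∈ P ^ n) ∧ (Y ∈ P ^ n ↔ Z ∈ P ^ n) := by
    intro P hPp hPm n
    have hP0 : P ≠ ⊥ := by
      rintro rfl
      rw [Ideal.mem_bot, Nat.cast_eq_zero] at hPm
      exact hp.pos.ne' hPm
    obtain ⟨h1, h2⟩ := hv ⟨P, hPp, hP0⟩ hPm
    have e : ∀ (w : K) (W : 𝓞 K), algebraMap (𝓞 K) K W = a * w →
        (⟨P, hPp, hP0⟩ : HeightOneSpectrum (𝓞 K)).intValuation W =
          (⟨P, hPp, hP0⟩ : HeightOneSpectrum (𝓞 K)).valuation K a *
            (⟨P, hPp, hP0⟩ : HeightOneSpectrum (𝓞 K)).valuation K w := by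
      intro w W hW
      rw [← map_mul, ← hW]
      exact (HeightOneSpectrum.valuation_of_algebraMap _ _).symm
    have hXY : (⟨P, hPp, hP0⟩ : HeightOneSpectrum (𝓞 K)).intValuation X =
        (⟨P, hPp, hP0⟩ : HeightOneSpectrum (𝓞 K)).intValuation Y := by
      rw [e x X hXa, e y Y hYa, h1]
    have hYZ : (⟨P, hPp, hP0⟩ : HeightOneSpectrum (𝓞 K)).intValuation Y =
        (⟨P, hPp, hP0⟩ : HeightOneSpectrum (𝓞 K)).intValuation Z := by
      rw [e y Y hYa, e z Z hZa, h2]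
    have m : ∀ W : 𝓞 K, W ∈ P ^ n ↔
        (⟨P, hPp, hP0⟩ : HeightOneSpectrum (𝓞 K)).intValuation W ≤ WithZero.exp (-(n : ℤ)) :=
      fun W => ((⟨P, hPp, hP0⟩ : HeightOneSpectrum (𝓞 K)).intValuation_le_pow_iff_mem W n).symm
    rw [m X, m Y, m Z, hXY, hYZ]
    exact ⟨Iff.rfl, Iff.rfl⟩
  -- the norm of the common divisor is not divisible by q
  have hg : ((Ideal.absNorm G : ℕ) : ZMod q) ≠ 0 := by
    have hXG : X ∈ G := by rw [hGd]; exact Ideal.subset_span (by simp)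
    have hYG : Y ∈ G := by rw [hGd]; exact Ideal.subset_span (by simp)
    have hZG : Z ∈ G := by rw [hGd]; exact Ideal.subset_span (by simp)
    obtain ⟨s, hs, hs1⟩ : ∃ s ∈ G, ρ s ≠ 0 := by
      by_contra hcon
      push Not at hcon
      exact hn ⟨hcon X hXG, hcon Y hYG, hcon Z hZG⟩
    intro h0
    obtain ⟨I, hI⟩ := Ideal.dvd_span_singleton.2 hs
    obtain ⟨t, ht⟩ := norm_of_ideal (p := 1) odd_one s G I (by rw [pow_one]; exact hI)
    have h1 := hN s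
    rw [ht] at h1
    push_cast at h1
    rw [h0, zero_mul] at h1
    exact hs1 (pow_eq_zero_iff (Module.finrank_pos.ne') |>.1 h1.symm)
  have hc1 : ∀ P : Ideal (𝓞 K), P.IsPrime → ((p : ℕ) : 𝓞 K) ∈ P → X ∉ P * G :=
    fun P hPp hPm => case_of_val hX0 G hGd P hPp (hval P hPp hPm)
  have hc2 : ∀ P : Ideal (𝓞 K), P.IsPrime → ((p : ℕ) : 𝓞 K) ∈ P → Y ∉ P * G :=
    fun P hPp hPm => case_of_val hY0 G hGd2 P hPp fun n =>
      ⟨(hval P hPp hPm n).2, (hval P hPp hPm n).2.symm.trans (hval P hPp hPm n).1.symm⟩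
  have hc3 : ∀ P : Ideal (𝓞 K), P.IsPrime → ((p : ℕ) : 𝓞 K) ∈ P → Z ∉ P * G :=
    fun P hPp hPm => case_of_val hZ0 G hGd3 P hPp fun n =>
      ⟨(hval P hPp hPm n).2.symm.trans (hval P hPp hPm n).1.symm, (hval P hPp hPm n).1⟩
  have hF : Full p ((((Ideal.absNorm G : ℕ) : ZMod q) ^ e) ^ 2) (ρ X) (ρ Y) (ρ Z)
      (ρ X) (ρ Y) (ρ Z) :=
    ⟨dat_ram hp he ρ hN hX0 hXYZ G hGd hg hc1,
      dat_ram hp he ρ hN hY0 (by linear_combination hXYZ) G hGd2 hg hc2,
      dat_ram hp he ρ hN hZ0 (by linear_combination hXYZ) G hGd3 hg hc3⟩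
  have hr : ρ X ^ p + ρ Y ^ p + ρ Z ^ p = 0 := by
    rw [← map_pow, ← map_pow, ← map_pow, ← map_add, ← map_add, hXYZ, map_zero]
  exact local_ram hp hG hP (pow_ne_zero _ (pow_ne_zero _ hg)) hr hn hF

end Pool.Agent.Q146.SG
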